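import Pool.Agent.H71.DA.Q
import Pool.Agent.H52.PAG.P12

/-! # Short words in an Artin group modulo `γ_3` of the pure Artin group

For `s ≠ t` with `3 ≤ M s t` (finite): a word `s ^ k t ^ l` in `γ_3` is trivial, and a word
`s ^ k t ^ l s ^ p t ^ q` in `γ_3` has a vanishing exponent. -/

set_option autoImplicit false

namespace Pool.Agent.H71.DA

open Pool.Agent.H52.PAG

variable {B : Type*} (M : CoxeterMatrix B)

theorem word2 {s t : B} (h : 3 ≤ M s t) (k l : ℤ)
    (hx : gen M s ^ k * gen M t ^ l ∈ (pureA M).lowerCentralSeries 2) : k = 0 ∧ l = 0 := by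
  have hst : s ≠ t := by
    rintro rfl
    rw [M.diagonal] at h
    omega
  have h0 : M s t ≠ 0 := by omega
  refine q1 h k l ?_
  rw [← inc_mem_lcs M hst h0]
  rw [map_mul, map_zpow, map_zpow, inc_dg, inc_dg]
  exact hx

theorem word4 {s t : B} (h : 3 ≤ M s t) (k l p q : ℤ)
    (hx : gen M s ^ k * gen M t ^ l * gen M s ^ p * gen M t ^ q ∈
      (pureA M).lowerCentralSeries 2) : k * l * p * q = 0 := by
  have hst : s ≠ t := by
    rintro rfl
    rw [M.diagonal] at h
    omega
  have h0 : M s t ≠ 0 := by omega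
  refine q2 h k l p q ?_
  rw [← inc_mem_lcs M hst h0]
  simp only [map_mul, map_zpow, inc_dg]
  exact hx

theorem one_word2 {s t : B} (h : 3 ≤ M s t) {k l : ℤ}
    (hx : gen M s ^ k * gen M t ^ l = 1) : k = 0 ∧ l = 0 :=
  word2 M h k l (by rw [hx]; exact one_mem _)

theorem one_word4 {s t : B} (h : 3 ≤ M s t) {k l p q : ℤ}
    (hx : gen M s ^ k * gen M t ^ l * gen M s ^ p * gen M t ^ q = 1) : k * l * p * q = 0 :=
  word4 M h k l p q (by rw [hx]; exact one_mem _)

/-- the degree -/
def deg : Art M →* Multiplicative ℤ := lift (fun _ => Multiplicative.ofAdd 1) fun _ _ _ => rfl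

/-- the generators have infinite order -/
theorem gen_zpow_eq_one {s : B} {k : ℤ} (h : gen M s ^ k = 1) : k = 0 := by
  have h1 := congrArg (deg M) h
  rw [map_zpow, map_one] at h1
  have h2 : deg M (gen M s) = Multiplicative.ofAdd 1 := lift_gen _ _ s
  rw [h2, ← ofAdd_zsmul, smul_eq_mul, mul_one] at h1
  exact Multiplicative.ofAdd.injective h1

/-- powers of a generator are not in `γ_3` -/
theorem gen_zpow_lcs {s : B} {k : ℤ} (h : gen M s ^ k ∈ (pureA M).lowerCentralSeries 2) :
    k = 0 := by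
  have h1 : gen M s ^ k ∈ (pureA M).lowerCentralSeries 1 :=
    (pureA M).lowerCentralSeries_antitone (by norm_num) h
  rw [Subgroup.lowerCentralSeries_succ, Subgroup.lowerCentralSeries_zero] at h1
  have h2 : ⁅pureA M, pureA M⁆ ≤ (deg M).ker := by
    rw [Subgroup.commutator_le]
    intro a _ b _
    rw [MonoidHom.mem_ker, map_commutatorElement, commutatorElement_eq_one_iff_mul_comm]
    exact mul_comm _ _
  have h3 : deg M (gen M s ^ k) = 1 := h2 h1
  have h4 : deg M (gen M s) = Multiplicative.ofAdd 1 := lift_gen _ _ s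
  rw [map_zpow, h4, ← ofAdd_zsmul, smul_eq_mul, mul_one] at h3
  exact Multiplicative.ofAdd.injective h3

end Pool.Agent.H71.DA
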