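import Pool.Agent.H71.DA.GirB

/-! # The girth of the link of a vertex with label `m`

An alternating word with `n < 2 m` syllables (`n` even) and non vanishing exponents is not trivial in
the dihedral Artin group, hence in the Artin group; every `m ≥ 1`. -/

set_option autoImplicit false

namespace Pool.Agent.H71.DA

open Pool.Agent.H52.PAG MulOpposite

variable {m : ℕ}

theorem wW_ne_one (hm : 0 < m) {k : ℕ → ℤ} {n : ℕ} (hn0 : 0 < n) (hev : Even n) (hn : n < 2 * m)
    (hk : ∀ i < n, k i ≠ 0) : wW m k 0 n ≠ 1 := by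
  intro h
  have : NeZero (2 * m) := ⟨by omega⟩
  have hall := wW_one_all h
  obtain ⟨n2, hn2⟩ := hev
  -- the walk is closed
  have hY : sY k n = 0 := by
    have h1 := R_wW (m := m) k 0 n
    rw [h] at h1
    have h2 : R (1 : DA m) (((0 : ℤ) : ZMod (2 * m)), 1) = (((0 : ℤ) : ZMod (2 * m)), 1) := by
      show (ract (phi m) (dpr_phi m) 1).unop _ = _
      rw [map_one]
      rfl
    rw [h2] at h1
    have h3 := (Prod.ext_iff.1 h1).1
    simp only [add_zero] at h3
    have h4 : ((sY k n : ℤ) : ZMod (2 * m)) = 0 := by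
      rw [← h3, Int.cast_zero]
    rw [ZMod.intCast_zmod_eq_zero_iff_dvd] at h4
    have h5 := sY_le k n
    obtain ⟨q, hq⟩ := h4
    push_cast at hq
    rcases eq_or_ne q 0 with h6 | h6
    · rw [hq, h6, mul_zero]
    · exfalso
      have h7 : (2 * (m : ℤ)) ≤ |sY k n| := by
        rw [hq, abs_mul, abs_of_nonneg (by positivity : (0 : ℤ) ≤ 2 * m)]
        have h8 : 1 ≤ |q| := Int.one_le_abs h6
        nlinarith
      have h9 : (n : ℤ) < 2 * m := by exact_mod_cast hn
      omega
  have hpar := sX_par k n
  have hX : sX k n = 0 := by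
    unfold sY at hY
    split_ifs at hY with hD
    · exact hY
    · omega
  -- the degree
  have hdeg : ∑ i ∈ Finset.range n, sR k i = 0 := by
    have h1 := dega_wW (m := m) k 0 n
    rw [h, map_one] at h1
    have h2 : ∑ i ∈ Finset.range n, k i = 0 := by
      have := Multiplicative.ofAdd.injective (h1.symm.trans ofAdd_zero.symm)
      exact this
    have h3 := sum_sK k n
    rw [h2, hY] at h3
    omega
  -- the lowest edge
  obtain ⟨i0, hi0, hmin⟩ := Finset.exists_min_image (Finset.range n) (sX k)
    ⟨0, Finset.mem_range.2 hn0⟩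
  rw [Finset.mem_range] at hi0
  obtain ⟨c, hc⟩ : ∃ c : ℤ, c = -sX k i0 := ⟨_, rfl⟩
  have h0 : ∀ i < n, 0 ≤ sX k i + c := by
    intro i hi
    have := hmin i (Finset.mem_range.2 hi)
    omega
  have hclose : ∀ i < n, |sX k i - sX k i0| ≤ m - 1 ∧
      (sX k i - sX k i0 = m - 1 → i = i0 + (m - 1) ∨ i0 = i + (m - 1)) ∧
      (sX k i - sX k i0 = m - 1 → n + 2 = 2 * m) := by
    intro i hi
    rcases le_total i0 i with h1 | h1
    · obtain ⟨h2, h3⟩ := close k hX h1 hi.le
      rw [abs_le] at h2 h3 ⊢
      refine ⟨⟨by omega, by omega⟩, ?_, ?_⟩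
      · intro h4
        left
        omega
      · intro h4
        omega
    · obtain ⟨h2, h3⟩ := close k hX h1 hi0.le
      rw [abs_le] at h2 h3 ⊢
      refine ⟨⟨by omega, by omega⟩, ?_, ?_⟩
      · intro h4
        right
        omega
      · intro h4
        omega
  have h1 : ∀ i < n, sX k i + c + 1 ≤ m := by
    intro i hi
    have := (abs_le.1 (hclose i hi).1).2
    omega
  have hF : wF m k c n = 1 := by
    have h2 := R_wW (m := m) k c n
    rw [hall c] at h2
    have h3 : R (1 : DA m) ((c : ZMod (2 * m)), 1) = ((c : ZMod (2 * m)), 1) := by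
      show (ract (phi m) (dpr_phi m) 1).unop _ = _
      rw [map_one]
      rfl
    rw [h3] at h2
    exact ((Prod.ext_iff.1 h2).2).symm
  by_cases htop : ∃ j < n, sX k j + c + 1 = m
  · -- the full window
    obtain ⟨j, hj, hjt⟩ := htop
    have huniq : ∀ i < n, sX k i + c + 1 = m → i = j := by
      intro i hi hit
      have e1 := (hclose i hi).2.1 (by omega)
      have e2 := (hclose j hj).2.1 (by omega)
      have e3 := (hclose j hj).2.2 (by omega)
      omega
    have h2 := tot_wF hm k c h0 h1 n le_rfl
    rw [hF, map_one, hdeg, zero_sub] at h2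
    have h3 : ∑ i ∈ Finset.range n, (if sX k i + c + 1 = m then sR k i else 0) = sR k j := by
      rw [Finset.sum_eq_single j]
      · rw [if_pos hjt]
      · intro i hi hij
        rw [if_neg]
        intro h4
        exact hij (huniq i (Finset.mem_range.1 hi) h4)
      · intro h4
        exact absurd (Finset.mem_range.2 hj) h4
    rw [h3] at h2
    have h4 : -((m : ℤ) * sR k j) = 0 :=
      (Multiplicative.ofAdd.injective (h2.symm.trans ofAdd_zero.symm))
    have h5 : sR k j = 0 := by
      have h6 : (m : ℤ) * sR k j = 0 := by omega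
      rcases mul_eq_zero.1 h6 with h7 | h7
      · omega
      · exact h7
    have h6 := straight k (hk j hj) h5
    -- the direction before `j` is up
    have h7 : sD k j = true := by
      rcases Nat.eq_zero_or_pos j with h8 | h8
      · rw [h8]; rfl
      · obtain ⟨j', rfl⟩ : ∃ j', j = j' + 1 := ⟨j - 1, by omega⟩
        rcases sX_succ k j' with ⟨h9, h10⟩ | ⟨h9, h10⟩
        · exact h10
        · have := h1 j' (by omega)
          omega
    have h8 : sX k (j + 1) = sX k j + 1 := by
      rcases sX_succ k j with ⟨h9, h10⟩ | ⟨h9, h10⟩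
      · exact h9
      · rw [h6, h7] at h10
        exact absurd h10 (by simp)
    rcases Nat.lt_or_ge (j + 1) n with h9 | h9
    · have := h1 (j + 1) h9
      omega
    · have h10 : j + 1 = n := by omega
      rw [h10, hX] at h8
      have := h1 0 hn0
      have h11 : sX k 0 = 0 := rfl
      omega
  · -- the free case
    push Not at htop
    have h2 : ∀ i < n, sX k i + c + 2 ≤ m := by
      intro i hi
      have := h1 i hi
      have := htop i hi
      omega
    rcases free_case hm hk c h0 h2 n le_rfl with ⟨-, -, h3⟩ | ⟨j, b, h3, -⟩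
    · rw [hX] at h3
      omega
    · exact h3.ne_one hF

section Art

/-- alternating words: `x ^ k 0 * y ^ k 1 * x ^ k 2 * ⋯` (`n` syllables) -/
def altz {G : Type*} [Group G] (x y : G) (k : ℕ → ℤ) : ℕ → G
  | 0 => 1
  | n + 1 => altz x y k n * (if Odd n then y else x) ^ k n

theorem altz_succ {G : Type*} [Group G] (x y : G) (k : ℕ → ℤ) (n : ℕ) :
    altz x y k (n + 1) = altz x y k n * (if Odd n then y else x) ^ k n := rfl

/-- the first syllable -/
theorem altz_succ' {G : Type*} [Group G] (x y : G) (k : ℕ → ℤ) (n : ℕ) :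
    altz x y k (n + 1) = x ^ k 0 * altz y x (fun i => k (i + 1)) n := by
  induction n with
  | zero => simp [altz]
  | succ n ih =>
    rw [altz_succ, ih, altz_succ, mul_assoc]
    congr 2
    by_cases h : Odd n
    · rw [if_neg (by rw [Nat.not_odd_iff_even]; exact h.add_one), if_pos h]
    · rw [if_pos (by rw [Nat.not_odd_iff_even] at h; exact h.add_one), if_neg h]

variable {B : Type*} (M : CoxeterMatrix B)

/-- **Girth.** -/
theorem altz_ne_one {s t : B} (hst : s ≠ t) (h : M s t ≠ 0) {k : ℕ → ℤ} {n : ℕ} (hn0 : 0 < n)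
    (hev : Even n) (hn : n < 2 * M s t) (hk : ∀ i < n, k i ≠ 0) :
    altz (gen M s) (gen M t) k n ≠ 1 := by
  intro h1
  have h2 : ∀ n, inc M s t h (wW (M s t) k 0 n) = altz (gen M s) (gen M t) k n := by
    intro n
    induction n with
    | zero => rw [wW, map_one]; rfl
    | succ n ih =>
      rw [wW, map_mul, map_zpow, ih, altz_succ, inc_dg]
      congr 2
      unfold lt
      rw [zero_add]
      by_cases h3 : Odd n
      · rw [if_pos h3, decide_eq_true (by exact_mod_cast h3)]
        rfl
      · rw [if_neg h3, decide_eq_false (by exact_mod_cast h3)]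
        rfl
  refine wW_ne_one (Nat.pos_of_ne_zero h) hn0 hev hn hk (inc_injective M hst h ?_)
  rw [h2, h1, map_one]

end Art

end Pool.Agent.H71.DA
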