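import Pool.Agent.H52.PAG.Defs

/-! # Three more generators with labels four

`ext M` is the Coxeter matrix on `B ⊕ Fin 3` with `M` on `B` and all other labels `4`. Every generator of
`ext M` has at least two finite labels, and `Art M` is a retract of `Art (ext M)`. -/

set_option autoImplicit false

namespace Pool.Agent.H71.DA

open Pool.Agent.H52.PAG

variable {B : Type} (M : CoxeterMatrix B)

/-- three more generators with labels four -/
def ext : CoxeterMatrix (B ⊕ Fin 3) where
  M := fun x y => match x, y with
    | Sum.inl i, Sum.inl j => M i j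
    | Sum.inr i, Sum.inr j => if i = j then 1 else 4
    | _, _ => 4
  isSymm := by
    ext x y
    rcases x with i | i <;> rcases y with j | j
    · exact M.symmetric j i
    · rfl
    · rfl
    · show (if j = i then 1 else 4) = if i = j then 1 else 4
      simp only [eq_comm]
  diagonal := by
    rintro (i | i)
    · exact M.diagonal i
    · show (if i = i then 1 else 4) = 1
      rw [if_pos rfl]
  off_diagonal := by
    rintro (i | i) (j | j) h
    · exact M.off_diagonal i j fun e => h (by rw [e])
    · show (4 : ℕ) ≠ 1
      norm_num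
    · show (4 : ℕ) ≠ 1
      norm_num
    · show (if i = j then 1 else 4) ≠ 1
      rw [if_neg fun e => h (by rw [e])]
      norm_num

theorem ext_inl (i j : B) : ext M (Sum.inl i) (Sum.inl j) = M i j := rfl

theorem ext_inl_inr (i : B) (j : Fin 3) : ext M (Sum.inl i) (Sum.inr j) = 4 := rfl

theorem ext_inr_inl (i : Fin 3) (j : B) : ext M (Sum.inr i) (Sum.inl j) = 4 := rfl

theorem ext_inr {i j : Fin 3} (h : i ≠ j) : ext M (Sum.inr i) (Sum.inr j) = 4 := if_neg h

/-- large type is preserved -/
theorem ext_large (h : ∀ i j, i ≠ j → M i j = 0 ∨ 3 ≤ M i j) (x y : B ⊕ Fin 3) (hxy : x ≠ y) :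
    ext M x y = 0 ∨ 3 ≤ ext M x y := by
  rcases x with i | i <;> rcases y with j | j
  · exact h i j fun e => hxy (by rw [e])
  · exact Or.inr (by rw [ext_inl_inr]; norm_num)
  · exact Or.inr (by rw [ext_inr_inl]; norm_num)
  · exact Or.inr (by rw [ext_inr M fun e => hxy (by rw [e])]; norm_num)

/-- every generator has two finite labels -/
theorem ext_two (x : B ⊕ Fin 3) : ∃ y z, x ≠ y ∧ x ≠ z ∧ y ≠ z ∧ ext M x y ≠ 0 ∧ ext M x z ≠ 0 := by
  rcases x with i | i
  · refine ⟨Sum.inr 0, Sum.inr 1, by simp, by simp, by simp, ?_, ?_⟩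
    · rw [ext_inl_inr]; norm_num
    · rw [ext_inl_inr]; norm_num
  · refine ⟨Sum.inr (i + 1), Sum.inr (i + 2), ?_, ?_, ?_, ?_, ?_⟩
    · fin_cases i <;> simp
    · fin_cases i <;> simp
    · fin_cases i <;> simp
    · rw [ext_inr M (by fin_cases i <;> decide)]; norm_num
    · rw [ext_inr M (by fin_cases i <;> decide)]; norm_num

/-- the inclusion -/
def extIn : Art M →* Art (ext M) :=
  lift (fun i => gen (ext M) (Sum.inl i)) fun i j h => by
    have := gen_rel (M := ext M) (i := Sum.inl i) (j := Sum.inl j) h
    exact this

theorem extIn_gen (i : B) : extIn M (gen M i) = gen (ext M) (Sum.inl i) := lift_gen _ _ i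

/-- the retraction -/
def extOut : Art (ext M) →* Art M :=
  lift (fun x => match x with
    | Sum.inl i => gen M i
    | Sum.inr _ => 1) fun x y h => by
    rcases x with i | i <;> rcases y with j | j
    · exact gen_rel h
    · show alt (gen M i) 1 4 = alt 1 (gen M i) 4
      simp only [alt, one_mul, mul_one]
    · show alt 1 (gen M j) 4 = alt (gen M j) 1 4
      simp only [alt, one_mul, mul_one]
    · rfl

theorem extOut_extIn (x : Art M) : extOut M (extIn M x) = x := by
  have h : (extOut M).comp (extIn M) = MonoidHom.id (Art M) := by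
    refine art_ext fun i => ?_
    rw [MonoidHom.comp_apply, extIn_gen, MonoidHom.id_apply]
    exact lift_gen _ _ (Sum.inl i)
  exact DFunLike.congr_fun h x

theorem extIn_injective : Function.Injective (extIn M) := fun x y h => by
  rw [← extOut_extIn M x, h, extOut_extIn]

end Pool.Agent.H71.DA
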