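import Pool.Agent.H59.DE.Defs

/-! # Typed complexes satisfy the link condition

The angles are `π / 3` at the cells, `π / 2` at the hyperedges and `π / 6` at the points. The kinds of the
vertices of a path in a link alternate, so closed paths have even length; the lengths `4` at a cell and
`4, 6, 8, 10` at a point are excluded by the conditions of typed complexes. -/

set_option autoImplicit false

namespace Pool.Agent.H71.DA

open Pool.Agent.H54.CX Pool.Agent.H59.DE

variable {W T : Type} {X : Cpx W} {kd : W → ℕ} {τ : W → T}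

private theorem tri_edges (h : TC X kd τ) {a b c : W} (ht : X.Tri a b c) :
    kd a ≠ kd b ∧ kd b ≠ kd c ∧ kd a ≠ kd c ∧ X.len a b = L (kd a) (kd b) ∧
      X.len b c = L (kd b) (kd c) ∧ X.len a c = L (kd a) (kd c) := by
  have h1 := X.edge _ _ _ ht
  have h2 := X.edge _ _ _ (X.rot _ _ _ ht)
  have h3 := X.symm _ _ (X.edge _ _ _ (X.rot _ _ _ (X.rot _ _ _ ht)))
  exact ⟨h.kd_ne _ _ h1, h.kd_ne _ _ h2, h.kd_ne _ _ h3, h.len _ _ h1, h.len _ _ h2, h.len _ _ h3⟩

private theorem s3 : (Real.sqrt 3) ^ 2 = 3 := Real.sq_sqrt (by norm_num)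

/-- the angle at a cell -/
private theorem ang0 (h : TC X kd τ) {a b c : W} (ht : X.Tri a b c) (ha : kd a = 0) :
    X.ang a b c = Real.pi / 3 := by
  obtain ⟨n1, n2, n3, l1, l2, l3⟩ := tri_edges h ht
  have hb := h.kd_le b
  have hc := h.kd_le c
  have key : (X.len a b ^ 2 + X.len a c ^ 2 - X.len b c ^ 2) / (2 * X.len a b * X.len a c) =
      1 / 2 := by
    rw [ha] at n1 n3 l1 l3
    have hbc : (kd b = 1 ∧ kd c = 2) ∨ (kd b = 2 ∧ kd c = 1) := by omega
    rcases hbc with ⟨e1, e2⟩ | ⟨e1, e2⟩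
    · rw [l1, l2, l3, e1, e2]
      simp only [L]
      rw [s3]
      norm_num
    · rw [l1, l2, l3, e1, e2]
      simp only [L]
      rw [s3]
      norm_num
  unfold Cpx.ang
  rw [key, ← Real.cos_pi_div_three]
  exact Real.arccos_cos (by positivity) (by linarith [Real.pi_pos])

/-- the angle at a hyperedge -/
private theorem ang1 (h : TC X kd τ) {a b c : W} (ht : X.Tri a b c) (ha : kd a = 1) :
    X.ang a b c = Real.pi / 2 := by
  obtain ⟨n1, n2, n3, l1, l2, l3⟩ := tri_edges h ht
  have hb := h.kd_le b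
  have hc := h.kd_le c
  have key : (X.len a b ^ 2 + X.len a c ^ 2 - X.len b c ^ 2) / (2 * X.len a b * X.len a c) = 0 := by
    rw [ha] at n1 n3 l1 l3
    have hbc : (kd b = 0 ∧ kd c = 2) ∨ (kd b = 2 ∧ kd c = 0) := by omega
    rcases hbc with ⟨e1, e2⟩ | ⟨e1, e2⟩
    · rw [l1, l2, l3, e1, e2]
      simp only [L]
      rw [s3]
      norm_num
    · rw [l1, l2, l3, e1, e2]
      simp only [L]
      rw [s3]
      norm_num
  unfold Cpx.ang
  rw [key, Real.arccos_zero]

/-- the angle at a point -/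
private theorem ang2 (h : TC X kd τ) {a b c : W} (ht : X.Tri a b c) (ha : kd a = 2) :
    X.ang a b c = Real.pi / 6 := by
  obtain ⟨n1, n2, n3, l1, l2, l3⟩ := tri_edges h ht
  have hb := h.kd_le b
  have hc := h.kd_le c
  have hs : (0 : ℝ) < Real.sqrt 3 := Real.sqrt_pos.2 (by norm_num)
  have key : (X.len a b ^ 2 + X.len a c ^ 2 - X.len b c ^ 2) / (2 * X.len a b * X.len a c) =
      Real.sqrt 3 / 2 := by
    rw [ha] at n1 n3 l1 l3
    have hbc : (kd b = 0 ∧ kd c = 1) ∨ (kd b = 1 ∧ kd c = 0) := by omega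
    rcases hbc with ⟨e1, e2⟩ | ⟨e1, e2⟩
    · rw [l1, l2, l3, e1, e2]
      simp only [L]
      rw [div_eq_div_iff (by positivity) (by norm_num), s3]
      nlinarith [s3]
    · rw [l1, l2, l3, e1, e2]
      simp only [L]
      rw [div_eq_div_iff (by positivity) (by norm_num), s3]
      nlinarith [s3]
  unfold Cpx.ang
  rw [key, ← Real.cos_pi_div_six]
  exact Real.arccos_cos (by positivity) (by linarith [Real.pi_pos])

private theorem kinds (h : TC X kd τ) {a : W} {n : ℕ} {b : ℕ → W}
    (ht : ∀ i, i < n → X.Tri a (b i) (b (i + 1))) (hn : 0 < n) :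
    ∀ i, i ≤ n → (Even i → kd (b i) = kd (b 0)) ∧ (Odd i → kd (b i) ≠ kd (b 0)) ∧ kd (b i) ≠ kd a := by
  intro i
  induction i with
  | zero =>
    intro _
    obtain ⟨n1, _⟩ := tri_edges h (ht 0 hn)
    exact ⟨fun _ => rfl, fun h1 => absurd h1 (by decide), n1.symm⟩
  | succ i ih =>
    intro hi
    obtain ⟨h1, h2, h3⟩ := ih (by omega)
    obtain ⟨n1, n2, n3, _⟩ := tri_edges h (ht i (by omega))
    have a1 := h.kd_le a
    have a2 := h.kd_le (b i)
    have a3 := h.kd_le (b (i + 1))
    have a4 := h.kd_le (b 0)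
    have h0 := (tri_edges h (ht 0 hn)).1
    refine ⟨fun he => ?_, fun ho => ?_, n3.symm⟩
    · have h4 : Odd i := by
        rcases Nat.even_or_odd i with h5 | h5
        · exact absurd he (by rw [Nat.even_add_one]; exact fun h6 => h6 h5)
        · exact h5
      have h5 := h2 h4
      omega
    · have h4 : Even i := by
        rcases Nat.even_or_odd i with h5 | h5
        · exact h5
        · exact absurd ho (by rw [Nat.not_odd_iff_even]; exact h5.add_one)
      have h5 := h1 h4
      omega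

/-- the length of a closed path is even -/
private theorem even_len (h : TC X kd τ) {a : W} {n : ℕ} {b : ℕ → W} (hn : 3 ≤ n) (hb : b n = b 0)
    (ht : ∀ i, i < n → X.Tri a (b i) (b (i + 1))) : Even n := by
  have h1 := kinds h ht (by omega) n le_rfl
  rcases Nat.even_or_odd n with h2 | h2
  · exact h2
  · exact absurd (by rw [hb]) (h1.2.1 h2)

/-- two hyperedges of a cell have different types -/
private theorem ty_ne (h : TC X kd τ) {p g e e' : W} (hg : kd g = 0) (h1 : X.Tri g e p)
    (h2 : X.Tri g e' p) (hne : e ≠ e') : τ e ≠ τ e' := fun h3 =>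
  hne (h.inj g e e' hg (X.edge _ _ _ h1) (X.edge _ _ _ h2) h3)

private theorem tri3 {p g e : W} (h1 : X.Tri p g e) : X.Tri g e p := X.rot _ _ _ h1

private theorem tri3' {p g e : W} (h1 : X.Tri p e g) : X.Tri g e p :=
  X.rot _ _ _ (X.rot _ _ _ (X.swap _ _ _ h1))

private theorem tri4 {g p e : W} (h1 : X.Tri g p e) : X.Tri g e p :=
  X.rot _ _ _ (X.swap _ _ _ h1)

/-- three hyperedges -/
private theorem no3 (h : TC X kd τ) {p e1 e2 e3 g1 g2 g3 : W} (hp : kd p = 2) (k1 : kd e1 = 1)
    (k2 : kd e2 = 1) (k3 : kd e3 = 1) (c1 : kd g1 = 0) (c2 : kd g2 = 0) (c3 : kd g3 = 0)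
    (t1 : X.Tri g1 e1 p) (t1' : X.Tri g1 e2 p) (t2 : X.Tri g2 e2 p) (t2' : X.Tri g2 e3 p)
    (t3 : X.Tri g3 e3 p) (t3' : X.Tri g3 e1 p) (n1 : e1 ≠ e2) (n2 : e2 ≠ e3) (n3 : e3 ≠ e1) :
    False := by
  have m1 := ty_ne h c1 t1 t1' n1
  have m2 := ty_ne h c2 t2 t2' n2
  have m3 := ty_ne h c3 t3 t3' n3
  have edg : ∀ {g e : W}, X.Tri g e p → X.Edge e p := fun t => X.edge _ _ _ (X.rot _ _ _ t)
  rcases h.bip p e1 e2 e3 hp k1 k2 k3 (edg t1) (edg t2) (edg t3) with h1 | h1 | h1
  · exact m1 h1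
  · exact m2 h1
  · exact m3 h1.symm

/-- five hyperedges -/
private theorem no5 (h : TC X kd τ) {p e1 e2 e3 e4 e5 g1 g2 g3 g4 g5 : W} (hp : kd p = 2)
    (k1 : kd e1 = 1) (k2 : kd e2 = 1) (k3 : kd e3 = 1) (k4 : kd e4 = 1) (k5 : kd e5 = 1)
    (c1 : kd g1 = 0) (c2 : kd g2 = 0) (c3 : kd g3 = 0) (c4 : kd g4 = 0) (c5 : kd g5 = 0)
    (t1 : X.Tri g1 e1 p) (t1' : X.Tri g1 e2 p) (t2 : X.Tri g2 e2 p) (t2' : X.Tri g2 e3 p)
    (t3 : X.Tri g3 e3 p) (t3' : X.Tri g3 e4 p) (t4 : X.Tri g4 e4 p) (t4' : X.Tri g4 e5 p)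
    (t5 : X.Tri g5 e5 p) (t5' : X.Tri g5 e1 p)
    (n1 : e1 ≠ e2) (n2 : e2 ≠ e3) (n3 : e3 ≠ e4) (n4 : e4 ≠ e5) (n5 : e5 ≠ e1) : False := by
  have m1 := ty_ne h c1 t1 t1' n1
  have m2 := ty_ne h c2 t2 t2' n2
  have m3 := ty_ne h c3 t3 t3' n3
  have m4 := ty_ne h c4 t4 t4' n4
  have m5 := ty_ne h c5 t5 t5' n5
  have edg : ∀ {g e : W}, X.Tri g e p → X.Edge e p := fun t => X.edge _ _ _ (X.rot _ _ _ t)
  have q1 : τ e1 = τ e3 := by
    rcases h.bip p e1 e2 e3 hp k1 k2 k3 (edg t1) (edg t2) (edg t3) with h1 | h1 | h1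
    · exact absurd h1 m1
    · exact absurd h1 m2
    · exact h1
  have q2 : τ e3 = τ e5 := by
    rcases h.bip p e3 e4 e5 hp k3 k4 k5 (edg t3) (edg t4) (edg t5) with h1 | h1 | h1
    · exact absurd h1 m3
    · exact absurd h1 m4
    · exact h1
  exact m5 (q1.trans q2).symm

/-- closed paths at a point -/
private theorem at_point (h : TC X kd τ) {a : W} {n : ℕ} {b : ℕ → W} (ha : kd a = 2) (hn : 3 ≤ n)
    (hb : b n = b 0) (hi : ∀ i j, i < j → j < n → b i ≠ b j)
    (ht : ∀ i, i < n → X.Tri a (b i) (b (i + 1))) : 12 ≤ n := by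
  have he := even_len h hn hb ht
  have hk := kinds h ht (by omega)
  by_contra hcon
  have hn' : n = 4 ∨ n = 6 ∨ n = 8 ∨ n = 10 := by
    obtain ⟨r, hr⟩ := he
    omega
  have k0 := h.kd_le (b 0)
  have h0 := (hk 0 (by omega)).2.2
  have kev : ∀ i, i ≤ n → Even i → kd (b i) = kd (b 0) := fun i h1 h2 => (hk i h1).1 h2
  have kod : ∀ i, i ≤ n → Odd i → kd (b i) = 1 - kd (b 0) := by
    intro i h1 h2
    have h3 := (hk i h1).2.1 h2
    have h4 := (hk i h1).2.2
    have h5 := h.kd_le (b i)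
    omega
  have t : ∀ i, i < n → X.Tri a (b i) (b (i + 1)) := ht
  rw [ha] at h0
  have h01 : kd (b 0) = 0 ∨ kd (b 0) = 1 := by omega
  rcases hn' with rfl | rfl | rfl | rfl
  · have e : b 4 = b 0 := hb
    have t3 := t 3 (by omega)
    rw [e] at t3
    rcases h01 with h1 | h1
    · exact hi 0 2 (by omega) (by omega) (h.l2 a (b 1) (b 3) (b 0) (b 2) ha
        (by rw [kod 1 (by omega) (by decide), h1]) (by rw [kod 3 (by omega) (by decide), h1])
        h1 (by rw [kev 2 (by omega) (by decide), h1]) (hi 1 3 (by omega) (by omega))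
        (tri3 (t 0 (by omega))) (tri3' t3) (tri3' (t 1 (by omega))) (tri3 (t 2 (by omega))))
    · exact hi 1 3 (by omega) (by omega) (h.l2 a (b 0) (b 2) (b 1) (b 3) ha
        h1 (by rw [kev 2 (by omega) (by decide), h1]) (by rw [kod 1 (by omega) (by decide), h1])
        (by rw [kod 3 (by omega) (by decide), h1]) (hi 0 2 (by omega) (by omega))
        (tri3' (t 0 (by omega))) (tri3 (t 1 (by omega))) (tri3 t3) (tri3' (t 2 (by omega))))
  · have e : b 6 = b 0 := hb
    have t5 := t 5 (by omega)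
    rw [e] at t5
    rcases h01 with h1 | h1
    · exact no3 h ha (e1 := b 1) (e2 := b 3) (e3 := b 5) (g1 := b 2) (g2 := b 4) (g3 := b 0)
        (by rw [kod 1 (by omega) (by decide), h1]) (by rw [kod 3 (by omega) (by decide), h1])
        (by rw [kod 5 (by omega) (by decide), h1]) (by rw [kev 2 (by omega) (by decide), h1])
        (by rw [kev 4 (by omega) (by decide), h1]) h1 (tri3' (t 1 (by omega)))
        (tri3 (t 2 (by omega))) (tri3' (t 3 (by omega))) (tri3 (t 4 (by omega))) (tri3' t5)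
        (tri3 (t 0 (by omega))) (hi 1 3 (by omega) (by omega)) (hi 3 5 (by omega) (by omega))
        (hi 1 5 (by omega) (by omega)).symm
    · exact no3 h ha (e1 := b 0) (e2 := b 2) (e3 := b 4) (g1 := b 1) (g2 := b 3) (g3 := b 5)
        h1 (by rw [kev 2 (by omega) (by decide), h1])
        (by rw [kev 4 (by omega) (by decide), h1]) (by rw [kod 1 (by omega) (by decide), h1])
        (by rw [kod 3 (by omega) (by decide), h1]) (by rw [kod 5 (by omega) (by decide), h1])
        (tri3' (t 0 (by omega)))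
        (tri3 (t 1 (by omega))) (tri3' (t 2 (by omega))) (tri3 (t 3 (by omega)))
        (tri3' (t 4 (by omega))) (tri3 t5) (hi 0 2 (by omega) (by omega))
        (hi 2 4 (by omega) (by omega)) (hi 0 4 (by omega) (by omega)).symm
  · have e : b 8 = b 0 := hb
    have t7 := t 7 (by omega)
    rw [e] at t7
    rcases h01 with h1 | h1
    · rcases h.l4 a (b 1) (b 3) (b 5) (b 7) (b 2) (b 4) (b 6) (b 0) ha
        (by rw [kod 1 (by omega) (by decide), h1]) (by rw [kod 3 (by omega) (by decide), h1])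
        (by rw [kod 5 (by omega) (by decide), h1]) (by rw [kod 7 (by omega) (by decide), h1])
        (by rw [kev 2 (by omega) (by decide), h1]) (by rw [kev 4 (by omega) (by decide), h1])
        (by rw [kev 6 (by omega) (by decide), h1]) h1 (tri3' (t 1 (by omega)))
        (tri3 (t 2 (by omega))) (tri3' (t 3 (by omega))) (tri3 (t 4 (by omega)))
        (tri3' (t 5 (by omega))) (tri3 (t 6 (by omega))) (tri3' t7) (tri3 (t 0 (by omega)))
        (hi 1 3 (by omega) (by omega)) (hi 3 5 (by omega) (by omega))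
        (hi 5 7 (by omega) (by omega)) (hi 1 7 (by omega) (by omega)).symm with h2 | h2
      · exact hi 1 5 (by omega) (by omega) h2
      · exact hi 3 7 (by omega) (by omega) h2
    · rcases h.l4 a (b 0) (b 2) (b 4) (b 6) (b 1) (b 3) (b 5) (b 7) ha h1
        (by rw [kev 2 (by omega) (by decide), h1]) (by rw [kev 4 (by omega) (by decide), h1])
        (by rw [kev 6 (by omega) (by decide), h1]) (by rw [kod 1 (by omega) (by decide), h1])
        (by rw [kod 3 (by omega) (by decide), h1]) (by rw [kod 5 (by omega) (by decide), h1])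
        (by rw [kod 7 (by omega) (by decide), h1]) (tri3' (t 0 (by omega)))
        (tri3 (t 1 (by omega))) (tri3' (t 2 (by omega))) (tri3 (t 3 (by omega)))
        (tri3' (t 4 (by omega))) (tri3 (t 5 (by omega))) (tri3' (t 6 (by omega))) (tri3 t7)
        (hi 0 2 (by omega) (by omega)) (hi 2 4 (by omega) (by omega))
        (hi 4 6 (by omega) (by omega)) (hi 0 6 (by omega) (by omega)).symm with h2 | h2
      · exact hi 0 4 (by omega) (by omega) h2
      · exact hi 2 6 (by omega) (by omega) h2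
  · have e : b 10 = b 0 := hb
    have t9 := t 9 (by omega)
    rw [e] at t9
    rcases h01 with h1 | h1
    · exact no5 h ha (e1 := b 1) (e2 := b 3) (e3 := b 5) (e4 := b 7) (e5 := b 9)
        (g1 := b 2) (g2 := b 4) (g3 := b 6) (g4 := b 8) (g5 := b 0)
        (by rw [kod 1 (by omega) (by decide), h1]) (by rw [kod 3 (by omega) (by decide), h1])
        (by rw [kod 5 (by omega) (by decide), h1]) (by rw [kod 7 (by omega) (by decide), h1])
        (by rw [kod 9 (by omega) (by decide), h1])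
        (by rw [kev 2 (by omega) (by decide), h1]) (by rw [kev 4 (by omega) (by decide), h1])
        (by rw [kev 6 (by omega) (by decide), h1]) (by rw [kev 8 (by omega) (by decide), h1]) h1
        (tri3' (t 1 (by omega)))
        (tri3 (t 2 (by omega))) (tri3' (t 3 (by omega))) (tri3 (t 4 (by omega)))
        (tri3' (t 5 (by omega))) (tri3 (t 6 (by omega))) (tri3' (t 7 (by omega)))
        (tri3 (t 8 (by omega))) (tri3' t9) (tri3 (t 0 (by omega)))
        (hi 1 3 (by omega) (by omega)) (hi 3 5 (by omega) (by omega))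
        (hi 5 7 (by omega) (by omega)) (hi 7 9 (by omega) (by omega))
        (hi 1 9 (by omega) (by omega)).symm
    · exact no5 h ha (e1 := b 0) (e2 := b 2) (e3 := b 4) (e4 := b 6) (e5 := b 8)
        (g1 := b 1) (g2 := b 3) (g3 := b 5) (g4 := b 7) (g5 := b 9)
        h1 (by rw [kev 2 (by omega) (by decide), h1]) (by rw [kev 4 (by omega) (by decide), h1])
        (by rw [kev 6 (by omega) (by decide), h1]) (by rw [kev 8 (by omega) (by decide), h1])
        (by rw [kod 1 (by omega) (by decide), h1]) (by rw [kod 3 (by omega) (by decide), h1])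
        (by rw [kod 5 (by omega) (by decide), h1]) (by rw [kod 7 (by omega) (by decide), h1])
        (by rw [kod 9 (by omega) (by decide), h1])
        (tri3' (t 0 (by omega)))
        (tri3 (t 1 (by omega))) (tri3' (t 2 (by omega))) (tri3 (t 3 (by omega)))
        (tri3' (t 4 (by omega))) (tri3 (t 5 (by omega))) (tri3' (t 6 (by omega)))
        (tri3 (t 7 (by omega))) (tri3' (t 8 (by omega))) (tri3 t9)
        (hi 0 2 (by omega) (by omega)) (hi 2 4 (by omega) (by omega))
        (hi 4 6 (by omega) (by omega)) (hi 6 8 (by omega) (by omega))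
        (hi 0 8 (by omega) (by omega)).symm

/-- closed paths at a cell -/
private theorem at_cell (h : TC X kd τ) {a : W} {n : ℕ} {b : ℕ → W} (ha : kd a = 0) (hn : 3 ≤ n)
    (hb : b n = b 0) (hi : ∀ i j, i < j → j < n → b i ≠ b j)
    (ht : ∀ i, i < n → X.Tri a (b i) (b (i + 1))) : 6 ≤ n := by
  have he := even_len h hn hb ht
  have hk := kinds h ht (by omega)
  by_contra hcon
  have hn' : n = 4 := by
    obtain ⟨r, hr⟩ := he
    omega
  subst hn'
  have k0 := h.kd_le (b 0)
  have h0 := (hk 0 (by omega)).2.2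
  have kev : ∀ i, i ≤ 4 → Even i → kd (b i) = kd (b 0) := fun i h1 h2 => (hk i h1).1 h2
  have kod : ∀ i, i ≤ 4 → Odd i → kd (b i) = 3 - kd (b 0) := by
    intro i h1 h2
    have h3 := (hk i h1).2.1 h2
    have h4 := (hk i h1).2.2
    have h5 := h.kd_le (b i)
    omega
  rw [ha] at h0
  have e : b 4 = b 0 := hb
  have t3 := ht 3 (by omega)
  rw [e] at t3
  have h01 : kd (b 0) = 1 ∨ kd (b 0) = 2 := by omega
  rcases h01 with h1 | h1
  · exact hi 1 3 (by omega) (by omega) (h.lg a (b 0) (b 2) (b 1) (b 3) ha h1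
      (by rw [kev 2 (by omega) (by decide), h1]) (by rw [kod 1 (by omega) (by decide), h1])
      (by rw [kod 3 (by omega) (by decide), h1]) (hi 0 2 (by omega) (by omega))
      (ht 0 (by omega)) (tri4 (ht 1 (by omega))) (tri4 t3) (ht 2 (by omega)))
  · exact hi 0 2 (by omega) (by omega) (h.lg a (b 1) (b 3) (b 0) (b 2) ha
      (by rw [kod 1 (by omega) (by decide), h1]) (by rw [kod 3 (by omega) (by decide), h1])
      h1 (by rw [kev 2 (by omega) (by decide), h1]) (hi 1 3 (by omega) (by omega))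
      (tri4 (ht 0 (by omega))) t3 (ht 1 (by omega)) (tri4 (ht 2 (by omega))))

/-- typed complexes satisfy the link condition -/
theorem tc_link (h : TC X kd τ) : X.Link := by
  intro a n b hn hb hi ht
  have hpi := Real.pi_pos
  have hk := h.kd_le a
  have key : ∀ c : ℝ, (∀ i, i < n → X.ang a (b i) (b (i + 1)) = c) →
      ∑ i ∈ Finset.range n, X.ang a (b i) (b (i + 1)) = n * c := by
    intro c hc
    rw [Finset.sum_congr rfl (fun i hi => hc i (Finset.mem_range.1 hi)), Finset.sum_const,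
      Finset.card_range, nsmul_eq_mul]
  have hcase : kd a = 0 ∨ kd a = 1 ∨ kd a = 2 := by omega
  rcases hcase with ha | ha | ha
  · rw [key _ fun i hi' => ang0 h (ht i hi') ha]
    have h1 : (6 : ℝ) ≤ n := by exact_mod_cast at_cell h ha hn hb hi ht
    nlinarith
  · rw [key _ fun i hi' => ang1 h (ht i hi') ha]
    have h2 : 4 ≤ n := by
      obtain ⟨r, hr⟩ := even_len h hn hb ht
      omega
    have h1 : (4 : ℝ) ≤ n := by exact_mod_cast h2
    nlinarith
  · rw [key _ fun i hi' => ang2 h (ht i hi') ha]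
    have h1 : (12 : ℝ) ≤ n := by exact_mod_cast at_point h ha hn hb hi ht
    nlinarith

end Pool.Agent.H71.DA
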