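import Pool.Agent.H71.DA.Cyc
import Pool.Agent.H71.DA.Ext
import Pool.Agent.H56.DC.TCI

/-! # The conditions of the Deligne complex for large type -/

set_option autoImplicit false

namespace Pool.Agent.H71.DA

open Pool.Agent.H52.PAG Pool.Agent.H56.DC

variable {B : Type} (M : CoxeterMatrix B)

/-- large type -/
def Large : Prop := ∀ i j, i ≠ j → M i j = 0 ∨ 3 ≤ M i j

variable {M}

theorem gir_of_large (h : Large M) : Gir M where
  two := by
    intro i j hij hm x hx hy
    have h3 : 3 ≤ M i j := (h i j hij).resolve_left hm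
    obtain ⟨k, rfl⟩ := mem_par_singleton.1 hx
    obtain ⟨l, hl⟩ := mem_par_singleton.1 hy
    have h1 : gen M i ^ k * gen M j ^ (-l) = 1 := by
      rw [zpow_neg, hl, mul_inv_cancel]
    rw [(one_word2 M h3 h1).1, zpow_zero]
  four := by
    intro i j hij hm x hx y hy z hz w hw h1
    have h3 : 3 ≤ M i j := (h i j hij).resolve_left hm
    obtain ⟨k, rfl⟩ := mem_par_singleton.1 hx
    obtain ⟨l, rfl⟩ := mem_par_singleton.1 hy
    obtain ⟨p, rfl⟩ := mem_par_singleton.1 hz
    obtain ⟨q, rfl⟩ := mem_par_singleton.1 hw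
    have h2 := one_word4 M h3 h1
    rcases mul_eq_zero.1 h2 with h2 | h2
    · rcases mul_eq_zero.1 h2 with h2 | h2
      · rcases mul_eq_zero.1 h2 with h2 | h2
        · exact Or.inl (by rw [h2, zpow_zero])
        · exact Or.inr (Or.inl (by rw [h2, zpow_zero]))
      · exact Or.inr (Or.inr (Or.inl (by rw [h2, zpow_zero])))
    · exact Or.inr (Or.inr (Or.inr (by rw [h2, zpow_zero])))

theorem large_ext (h : Large M) : Large (ext M) := fun x y hxy => ext_large M h x y hxy

theorem deg_ext : Deg (ext M) := by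
  intro x
  obtain ⟨y, z, h1, h2, h3, h4, h5⟩ := ext_two M x
  exact ⟨y, z, h3, h1, h2, h4, h5⟩

/-- the Deligne complex of the extended matrix is a typed complex -/
theorem tc_ext (h : Large M) : Pool.Agent.H59.DE.TC (dcx (ext M)) DV.ty tp :=
  dcx_tc (gir_of_large (large_ext h)) deg_ext

end Pool.Agent.H71.DA
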