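import Mathlib

/-! # Walks on the edges of a polygon given by a list of exponents

`sD k i`: the direction (`true` is up) before the step `i`; it changes exactly at the even exponents.
`sX k i`: the edge used in step `i`; `sY k i`: the vertex before step `i`; `sR k i`: the exponent of
the step `i`. -/

set_option autoImplicit false

namespace Pool.Agent.H71.DA

/-- the direction -/
def sD (k : ℕ → ℤ) : ℕ → Bool
  | 0 => true
  | i + 1 => if Even (k i) then !(sD k i) else sD k i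

/-- the edge -/
def sX (k : ℕ → ℤ) : ℕ → ℤ
  | 0 => 0
  | i + 1 => sX k i + (if sD k (i + 1) then 1 else -1)

/-- the vertex -/
def sY (k : ℕ → ℤ) (i : ℕ) : ℤ := if sD k i then sX k i else sX k i + 1

/-- the exponent -/
def sR (k : ℕ → ℤ) (i : ℕ) : ℤ := if sD k i then k i / 2 else (k i + 1) / 2

variable (k : ℕ → ℤ)

theorem sX_succ (i : ℕ) : sX k (i + 1) = sX k i + 1 ∧ sD k (i + 1) = true ∨
    sX k (i + 1) = sX k i - 1 ∧ sD k (i + 1) = false := by
  rcases h : sD k (i + 1) with _ | _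
  · right
    refine ⟨?_, rfl⟩
    rw [sX, h]
    rfl
  · left
    refine ⟨?_, rfl⟩
    rw [sX, h]
    rfl

/-- the four kinds of steps -/
theorem kinds4 (i : ℕ) :
    (∃ q : ℤ, k i = 2 * q ∧ sD k i = true ∧ sD k (i + 1) = false ∧ sR k i = q ∧
      sX k (i + 1) = sX k i - 1 ∧ sY k i = sX k i ∧ sY k (i + 1) = sX k i) ∨
    (∃ q : ℤ, k i = 2 * q + 1 ∧ sD k i = true ∧ sD k (i + 1) = true ∧ sR k i = q ∧
      sX k (i + 1) = sX k i + 1 ∧ sY k i = sX k i ∧ sY k (i + 1) = sX k i + 1) ∨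
    (∃ q : ℤ, k i = 2 * q ∧ sD k i = false ∧ sD k (i + 1) = true ∧ sR k i = q ∧
      sX k (i + 1) = sX k i + 1 ∧ sY k i = sX k i + 1 ∧ sY k (i + 1) = sX k i + 1) ∨
    (∃ q : ℤ, k i = 2 * q + 1 ∧ sD k i = false ∧ sD k (i + 1) = false ∧ sR k i = q + 1 ∧
      sX k (i + 1) = sX k i - 1 ∧ sY k i = sX k i + 1 ∧ sY k (i + 1) = sX k i) := by
  rcases hD : sD k i with _ | _
  · obtain ⟨q, hq | hq⟩ := Int.even_or_odd' (k i)
    · right; right; left
      have h1 : sD k (i + 1) = true := by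
        rw [sD, if_pos (by rw [hq]; exact even_two_mul q), hD]; rfl
      refine ⟨q, hq, rfl, h1, ?_, ?_, ?_, ?_⟩
      · rw [sR, hD, hq]; simp; omega
      · rw [sX, h1]; rfl
      · rw [sY, hD]; rfl
      · rw [sY, h1, sX, h1]; rfl
    · right; right; right
      have h1 : sD k (i + 1) = false := by
        rw [sD, if_neg (by rw [hq, Int.not_even_iff_odd]; exact odd_two_mul_add_one q), hD]
      refine ⟨q, hq, rfl, h1, ?_, ?_, ?_, ?_⟩
      · rw [sR, hD, hq]; simp; omega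
      · rw [sX, h1]; rfl
      · rw [sY, hD]; rfl
      · rw [sY, h1, sX, h1]; simp
  · obtain ⟨q, hq | hq⟩ := Int.even_or_odd' (k i)
    · left
      have h1 : sD k (i + 1) = false := by
        rw [sD, if_pos (by rw [hq]; exact even_two_mul q), hD]; rfl
      refine ⟨q, hq, rfl, h1, ?_, ?_, ?_, ?_⟩
      · rw [sR, hD, hq]; simp
      · rw [sX, h1]; rfl
      · rw [sY, hD]; rfl
      · rw [sY, h1, sX, h1]; simp
    · right; left
      have h1 : sD k (i + 1) = true := by
        rw [sD, if_neg (by rw [hq, Int.not_even_iff_odd]; exact odd_two_mul_add_one q), hD]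
      refine ⟨q, hq, rfl, h1, ?_, ?_, ?_, ?_⟩
      · rw [sR, hD, hq]; simp; omega
      · rw [sX, h1]; rfl
      · rw [sY, hD]; rfl
      · rw [sY, h1, sX, h1]; rfl

theorem sX_le (i j : ℕ) : |sX k (i + j) - sX k i| ≤ j := by
  induction j with
  | zero => simp
  | succ j ih =>
    have h1 := sX_succ k (i + j)
    rw [← add_assoc]
    rw [abs_le] at ih ⊢
    push_cast
    rcases h1 with h1 | h1 <;> constructor <;> omega

theorem sX_par (i : ℕ) : (2 : ℤ) ∣ sX k i - i := by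
  induction i with
  | zero => simp [sX]
  | succ i ih =>
    have h1 := sX_succ k i
    push_cast
    rcases h1 with h1 | h1 <;> omega

theorem sY_le (i : ℕ) : |sY k i| ≤ i := by
  induction i with
  | zero => simp [sY, sD, sX]
  | succ i ih =>
    rw [abs_le] at ih ⊢
    push_cast
    rcases kinds4 k i with ⟨q, -, -, -, -, h1, h2, h3⟩ | ⟨q, -, -, -, -, h1, h2, h3⟩ |
      ⟨q, -, -, -, -, h1, h2, h3⟩ | ⟨q, -, -, -, -, h1, h2, h3⟩ <;> constructor <;> omega

theorem sK (i : ℕ) : k i = 2 * sR k i + (sY k (i + 1) - sY k i) := by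
  rcases kinds4 k i with ⟨q, h4, -, -, h5, h1, h2, h3⟩ | ⟨q, h4, -, -, h5, h1, h2, h3⟩ |
      ⟨q, h4, -, -, h5, h1, h2, h3⟩ | ⟨q, h4, -, -, h5, h1, h2, h3⟩ <;> omega

theorem sum_sK (n : ℕ) : ∑ i ∈ Finset.range n, k i = 2 * ∑ i ∈ Finset.range n, sR k i + sY k n := by
  induction n with
  | zero => simp [sY, sD, sX]
  | succ n ih =>
    rw [Finset.sum_range_succ, Finset.sum_range_succ, ih, sK k n]
    ring

/-- if the exponent of a step vanishes then the step is straight -/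
theorem straight {i : ℕ} (hk : k i ≠ 0) (hr : sR k i = 0) : sD k (i + 1) = sD k i := by
  rcases kinds4 k i with ⟨q, h4, h6, h7, h5, h1, h2, h3⟩ | ⟨q, h4, h6, h7, h5, h1, h2, h3⟩ |
      ⟨q, h4, h6, h7, h5, h1, h2, h3⟩ | ⟨q, h4, h6, h7, h5, h1, h2, h3⟩
  · omega
  · rw [h6, h7]
  · omega
  · rw [h6, h7]

/-- closed walks: both bounds for the distance of two edges -/
theorem close {n : ℕ} (hn : sX k n = 0) {i j : ℕ} (hij : i ≤ j) (hj : j ≤ n) :
    |sX k j - sX k i| ≤ j - i ∧ |sX k j - sX k i| ≤ n - (j - i) := by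
  have h1 := sX_le k i (j - i)
  have h2 := sX_le k 0 i
  have h3 := sX_le k j (n - j)
  rw [Nat.add_sub_cancel' hij] at h1
  rw [Nat.add_sub_cancel' hj, hn] at h3
  rw [Nat.zero_add, sX] at h2
  rw [abs_le] at h1 h2 h3 ⊢
  rw [abs_le]
  rw [Nat.cast_sub hij] at h1
  rw [Nat.cast_sub hj] at h3
  refine ⟨⟨by omega, by omega⟩, ⟨by omega, by omega⟩⟩

end Pool.Agent.H71.DA
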