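import Pool.Agent.H71.DA.GirA
import Pool.Agent.H71.DA.Cyc

/-! # The words of the walk: action of the dihedral Artin group, last letters in the free group -/

set_option autoImplicit false

namespace Pool.Agent.H71.DA

open Pool.Agent.H52.PAG MulOpposite

variable {m : ℕ}

/-- the letters -/
def lt (c : ℤ) (i : ℕ) : Bool := decide (Odd (c + i))

/-- the word -/
def wW (m : ℕ) (k : ℕ → ℤ) (c : ℤ) : ℕ → DA m
  | 0 => 1
  | n + 1 => wW m k c n * dg m (lt c n) ^ k n

/-- the value in the free group -/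
def wF (m : ℕ) (k : ℕ → ℤ) (c : ℤ) : ℕ → FreeGroup (Fin (m - 1))
  | 0 => 1
  | n + 1 => wF m k c n * phi m ((sX k n + c : ℤ) : ZMod (2 * m)) ^ sR k n

theorem par_int (z : ℤ) : par ((z : ℤ) : ZMod (2 * m)) = decide (Odd z) := by
  unfold par
  rw [map_intCast]
  exact decide_eq_decide.2 ZMod.intCast_eq_one_iff_odd

theorem step (k : ℕ → ℤ) (c : ℤ) (i : ℕ) (g : FreeGroup (Fin (m - 1))) :
    R (dg m (lt c i) ^ k i) (((sY k i + c : ℤ) : ZMod (2 * m)), g) =
      (((sY k (i + 1) + c : ℤ) : ZMod (2 * m)),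
        g * phi m ((sX k i + c : ℤ) : ZMod (2 * m)) ^ sR k i) := by
  have hp := sX_par k i
  rcases kinds4 k i with ⟨q, h4, h6, h7, h5, h1, h2, h3⟩ | ⟨q, h4, h6, h7, h5, h1, h2, h3⟩ |
      ⟨q, h4, h6, h7, h5, h1, h2, h3⟩ | ⟨q, h4, h6, h7, h5, h1, h2, h3⟩
  · have hv : par ((sX k i + c : ℤ) : ZMod (2 * m)) = lt c i := by
      rw [par_int, lt]
      refine decide_eq_decide.2 ?_
      rw [Int.odd_iff, Int.odd_iff]
      omega
    rw [h2, h3, h4, h5]
    exact (R_up hv rfl q g).1
  · have hv : par ((sX k i + c : ℤ) : ZMod (2 * m)) = lt c i := by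
      rw [par_int, lt]
      refine decide_eq_decide.2 ?_
      rw [Int.odd_iff, Int.odd_iff]
      omega
    rw [h2, h3, h4, h5]
    have hv' : ((sX k i + c : ℤ) : ZMod (2 * m)) + 1 = ((sX k i + 1 + c : ℤ) : ZMod (2 * m)) := by
      push_cast; ring
    exact (R_up hv hv' q g).2
  · have hv : par ((sX k i + 1 + c : ℤ) : ZMod (2 * m)) ≠ lt c i := by
      rw [par_int, lt]
      intro h
      have h8 := decide_eq_decide.1 h
      rw [Int.odd_iff, Int.odd_iff] at h8
      omega
    rw [h2, h3, h4, h5]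
    have hv' : ((sX k i + 1 + c : ℤ) : ZMod (2 * m)) - 1 = ((sX k i + c : ℤ) : ZMod (2 * m)) := by
      push_cast; ring
    exact (R_down hv hv' q g).1
  · have hv : par ((sX k i + 1 + c : ℤ) : ZMod (2 * m)) ≠ lt c i := by
      rw [par_int, lt]
      intro h
      have h8 := decide_eq_decide.1 h
      rw [Int.odd_iff, Int.odd_iff] at h8
      omega
    rw [h2, h3, h4, h5]
    have hv' : ((sX k i + 1 + c : ℤ) : ZMod (2 * m)) - 1 = ((sX k i + c : ℤ) : ZMod (2 * m)) := by
      push_cast; ring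
    exact (R_down hv hv' q g).2

theorem R_wW (k : ℕ → ℤ) (c : ℤ) (n : ℕ) :
    R (wW m k c n) ((c : ZMod (2 * m)), 1) = (((sY k n + c : ℤ) : ZMod (2 * m)), wF m k c n) := by
  induction n with
  | zero =>
    have h0 : sY k 0 = 0 := by simp [sY, sD, sX]
    rw [wW, wF, h0, zero_add]
    show (ract (phi m) (dpr_phi m) 1).unop _ = _
    rw [map_one]
    rfl
  | succ n ih =>
    rw [wW, R_mul, ih, step, wF]

/-- swapping the generators -/
def swp (m : ℕ) : DA m →* DA m := dlift (fun e => dg m (!e)) dg_rel.symm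

theorem swp_wW (k : ℕ → ℤ) (c : ℤ) (n : ℕ) : swp m (wW m k c n) = wW m k (c + 1) n := by
  induction n with
  | zero => rw [wW, wW, map_one]
  | succ n ih =>
    rw [wW, map_mul, map_zpow, ih, wW, swp, dlift_dg]
    congr 3
    unfold lt
    rw [Bool.not_eq_eq_eq_not, ← decide_not]
    refine decide_eq_decide.2 ?_
    rw [Int.odd_iff, Int.odd_iff]
    omega

theorem wW_add_two (k : ℕ → ℤ) (c : ℤ) (n : ℕ) : wW m k (c + 2) n = wW m k c n := by
  induction n with
  | zero => rfl
  | succ n ih =>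
    rw [wW, wW, ih]
    congr 3
    unfold lt
    refine decide_eq_decide.2 ?_
    rw [Int.odd_iff, Int.odd_iff]
    omega

theorem wW_one_all {k : ℕ → ℤ} {n : ℕ} (h : wW m k 0 n = 1) (c : ℤ) : wW m k c n = 1 := by
  have h1 : ∀ c, wW m k c n = 1 → wW m k (c + 1) n = 1 := by
    intro c hc
    rw [← swp_wW, hc, map_one]
  have h2 : ∀ c, wW m k c n = 1 → wW m k (c - 1) n = 1 := by
    intro c hc
    have h3 := h1 c hc
    rw [← wW_add_two]
    have e : c - 1 + 2 = c + 1 := by ring
    rw [e]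
    exact h3
  induction c using Int.induction_on with
  | zero => exact h
  | succ i ih => exact h1 _ ih
  | pred i ih => exact h2 _ ih

theorem dega_wW (k : ℕ → ℤ) (c : ℤ) (n : ℕ) :
    dega m (wW m k c n) = Multiplicative.ofAdd (∑ i ∈ Finset.range n, k i) := by
  induction n with
  | zero => rw [wW, map_one]; rfl
  | succ n ih =>
    rw [wW, map_mul, map_zpow, ih, Finset.sum_range_succ, ofAdd_add]
    congr 1
    unfold dega
    rw [dlift_dg, ← ofAdd_zsmul, smul_eq_mul, mul_one]

/-! ### last letters -/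

section Free

variable {α : Type*}

/-- the reduced word of `x` is not empty and ends with the letter `(j, b)` -/
def Ends (x : FreeGroup α) (j : α) (b : Bool) : Prop :=
  ∃ L : List (α × Bool), FreeGroup.IsReduced (L ++ [(j, b)]) ∧ FreeGroup.mk (L ++ [(j, b)]) = x

theorem Ends.ne_one {x : FreeGroup α} {j : α} {b : Bool} (h : Ends x j b) : x ≠ 1 := by
  classical
  obtain ⟨L, h1, h2⟩ := h
  intro h3
  rw [← h2] at h3
  have h4 := congrArg FreeGroup.toWord h3
  rw [FreeGroup.toWord_mk, h1.reduce_eq, FreeGroup.toWord_one] at h4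
  simp at h4

theorem Ends.letter {x : FreeGroup α} {j j' : α} {b b' : Bool} (h : Ends x j b)
    (hj : j = j' → b = b') : Ends (x * FreeGroup.mk [(j', b')]) j' b' := by
  obtain ⟨L, h1, h2⟩ := h
  refine ⟨L ++ [(j, b)], ?_, ?_⟩
  · refine List.isChain_append.2 ⟨h1, List.isChain_singleton _, ?_⟩
    intro y hy z hz
    simp only [List.getLast?_append, List.getLast?_singleton, Option.some_or,
      Option.mem_def, Option.some.injEq, List.head?_cons] at hy hz
    rw [← hy, ← hz]
    exact hj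
  · rw [← h2, FreeGroup.mul_mk]

theorem Ends.one_letter (j : α) (b : Bool) : Ends (1 * FreeGroup.mk [(j, b)]) j b :=
  ⟨[], List.isChain_singleton _, by rw [List.nil_append, one_mul]⟩

theorem Ends.pow {x : FreeGroup α} {j : α} {b : Bool} (h : Ends (x * FreeGroup.mk [(j, b)]) j b)
    (n : ℕ) : Ends (x * FreeGroup.mk [(j, b)] ^ (n + 1)) j b := by
  induction n with
  | zero => rw [zero_add, pow_one]; exact h
  | succ n ih =>
    rw [pow_succ _ (n + 1), ← mul_assoc]
    exact ih.letter fun _ => rfl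

theorem ends_zpow {x : FreeGroup α} {j : α} (h : ∀ b, Ends (x * FreeGroup.mk [(j, b)]) j b)
    {r : ℤ} (hr : r ≠ 0) : ∃ b, Ends (x * FreeGroup.of j ^ r) j b := by
  rcases lt_or_gt_of_ne hr with h1 | h1
  · obtain ⟨n, hn⟩ : ∃ n : ℕ, r = -((n : ℤ) + 1) := ⟨(-r - 1).toNat, by omega⟩
    refine ⟨false, ?_⟩
    have e : FreeGroup.of j ^ r = FreeGroup.mk [(j, false)] ^ (n + 1) := by
      rw [hn, zpow_neg, ← inv_zpow]
      have e2 : (FreeGroup.of j)⁻¹ = FreeGroup.mk [(j, false)] := rfl
      rw [e2]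
      exact_mod_cast rfl
    rw [e]
    exact (h false).pow n
  · obtain ⟨n, hn⟩ : ∃ n : ℕ, r = (n : ℤ) + 1 := ⟨(r - 1).toNat, by omega⟩
    refine ⟨true, ?_⟩
    have e : FreeGroup.of j ^ r = FreeGroup.mk [(j, true)] ^ (n + 1) := by
      rw [hn]
      exact_mod_cast rfl
    rw [e]
    exact (h true).pow n

/-- the product with a power of another generator -/
theorem Ends.mul_zpow {x : FreeGroup α} {j j' : α} {b : Bool} (h : Ends x j b) (hj : j ≠ j')
    {r : ℤ} (hr : r ≠ 0) : ∃ b, Ends (x * FreeGroup.of j' ^ r) j' b :=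
  ends_zpow (fun _ => h.letter fun h1 => absurd h1 hj) hr

theorem Ends.zpow {j : α} {r : ℤ} (hr : r ≠ 0) : ∃ b, Ends (1 * FreeGroup.of j ^ r) j b :=
  ends_zpow (fun b => Ends.one_letter j b) hr

end Free

/-! ### the two cases -/

/-- the values of `phi` on the interval `[0, m)` -/
theorem phi_low (hm : 0 < m) {z : ℤ} (h0 : 0 ≤ z) (h1 : z + 2 ≤ m) :
    phi m ((z : ℤ) : ZMod (2 * m)) = FreeGroup.of ⟨z.toNat, by omega⟩ := by
  obtain ⟨n, rfl⟩ : ∃ n : ℕ, z = n := ⟨z.toNat, by omega⟩
  have h2 : n % m = n := Nat.mod_eq_of_lt (by omega)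
  rw [Int.cast_natCast, phi_natCast hm, h2, fph, dif_pos (by omega)]
  rfl

theorem phi_top (hm : 0 < m) : phi m (((m : ℤ) - 1 : ℤ) : ZMod (2 * m)) = (gpr m (m - 1))⁻¹ := by
  have e : (m : ℤ) - 1 = ((m - 1 : ℕ) : ℤ) := by omega
  have h2 : (m - 1) % m = m - 1 := Nat.mod_eq_of_lt (by omega)
  rw [e, Int.cast_natCast, phi_natCast hm, h2, fph, dif_neg (lt_irrefl _)]

/-- the free case -/
theorem free_case (hm : 0 < m) {k : ℕ → ℤ} {n : ℕ} (hk : ∀ i < n, k i ≠ 0) (c : ℤ)
    (h0 : ∀ i < n, 0 ≤ sX k i + c) (h1 : ∀ i < n, sX k i + c + 2 ≤ m) :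
    ∀ i ≤ n, (wF m k c i = 1 ∧ sD k i = true ∧ sX k i = i) ∨
      ∃ (j : Fin (m - 1)) (b : Bool), Ends (wF m k c i) j b ∧
        (sD k i = true → (j : ℤ) < sX k i + c) ∧ (sD k i = false → sX k i + c < (j : ℤ)) := by
  intro i
  induction i with
  | zero => intro _; exact Or.inl ⟨rfl, rfl, rfl⟩
  | succ i ih =>
    intro hi
    have hi' : i < n := by omega
    have hz0 := h0 i hi'
    have hz1 := h1 i hi'
    have hphi := phi_low hm hz0 hz1
    have hmove : ∀ b, Ends (wF m k c (i + 1)) (⟨(sX k i + c).toNat, by omega⟩ : Fin (m - 1)) b →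
        ∃ (j : Fin (m - 1)) (b : Bool), Ends (wF m k c (i + 1)) j b ∧
        (sD k (i + 1) = true → (j : ℤ) < sX k (i + 1) + c) ∧
        (sD k (i + 1) = false → sX k (i + 1) + c < (j : ℤ)) := by
      intro b hb
      refine ⟨_, b, hb, ?_, ?_⟩
      · intro h2
        rcases sX_succ k i with ⟨h3, h4⟩ | ⟨h3, h4⟩
        · show (((sX k i + c).toNat : ℕ) : ℤ) < _
          omega
        · rw [h2] at h4
          exact absurd h4 (by simp)
      · intro h2
        rcases sX_succ k i with ⟨h3, h4⟩ | ⟨h3, h4⟩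
        · rw [h2] at h4
          exact absurd h4 (by simp)
        · show _ < (((sX k i + c).toNat : ℕ) : ℤ)
          omega
    rcases ih (by omega) with ⟨e1, e2, e3⟩ | ⟨j, b, e1, e2, e3⟩
    · by_cases hr : sR k i = 0
      · left
        have h2 := straight k (hk i hi') hr
        rw [e2] at h2
        refine ⟨?_, h2, ?_⟩
        · rw [wF, e1, hr, zpow_zero, mul_one]
        · rcases sX_succ k i with ⟨h3, h4⟩ | ⟨h3, h4⟩
          · push_cast; omega
          · rw [h2] at h4
            exact absurd h4 (by simp)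
      · right
        obtain ⟨b, hb⟩ := Ends.zpow (j := (⟨(sX k i + c).toNat, by omega⟩ : Fin (m - 1))) hr
        refine hmove b ?_
        rw [wF, e1, hphi]
        exact hb
    · right
      by_cases hr : sR k i = 0
      · have h2 := straight k (hk i hi') hr
        refine ⟨j, b, ?_, ?_, ?_⟩
        · rw [wF, hr, zpow_zero, mul_one]
          exact e1
        · intro h5
          rcases sX_succ k i with ⟨h3, h4⟩ | ⟨h3, h4⟩
          · rw [h2] at h5
            have := e2 h5
            omega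
          · rw [h5] at h4
            exact absurd h4 (by simp)
        · intro h5
          rcases sX_succ k i with ⟨h3, h4⟩ | ⟨h3, h4⟩
          · rw [h5] at h4
            exact absurd h4 (by simp)
          · rw [h2] at h5
            have := e3 h5
            omega
      · have hne : j ≠ (⟨(sX k i + c).toNat, by omega⟩ : Fin (m - 1)) := by
          intro h5
          have h6 : (j : ℤ) = sX k i + c := by
            rw [h5]
            show (((sX k i + c).toNat : ℕ) : ℤ) = _
            omega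
          rcases hD : sD k i with _ | _
          · have := e3 hD
            omega
          · have := e2 hD
            omega
        obtain ⟨b', hb⟩ := e1.mul_zpow hne hr
        refine hmove b' ?_
        rw [wF, hphi]
        exact hb

/-- the total exponent -/
def tot (m : ℕ) : FreeGroup (Fin (m - 1)) →* Multiplicative ℤ :=
  FreeGroup.lift fun _ => Multiplicative.ofAdd 1

theorem tot_gpr (n : ℕ) (hn : n ≤ m - 1) : tot m (gpr m n) = Multiplicative.ofAdd (n : ℤ) := by
  induction n with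
  | zero => rw [gpr, map_one]; rfl
  | succ n ih =>
    rw [gpr, dif_pos (by omega), map_mul, ih (by omega), tot, FreeGroup.lift_apply_of, ← ofAdd_add]
    congr 1
    push_cast
    ring

theorem tot_wF (hm : 0 < m) (k : ℕ → ℤ) {n : ℕ} (c : ℤ) (h0 : ∀ i < n, 0 ≤ sX k i + c)
    (h1 : ∀ i < n, sX k i + c + 1 ≤ m) : ∀ i ≤ n, tot m (wF m k c i) = Multiplicative.ofAdd
      (∑ j ∈ Finset.range i, sR k j -
        m * ∑ j ∈ Finset.range i, if sX k j + c + 1 = m then sR k j else 0) := by
  intro i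
  induction i with
  | zero => intro _; rw [wF, map_one]; simp
  | succ i ih =>
    intro hi
    have hi' : i < n := by omega
    have hz0 := h0 i hi'
    have hz1 := h1 i hi'
    rw [wF, map_mul, map_zpow, ih (by omega), Finset.sum_range_succ, Finset.sum_range_succ]
    by_cases hz : sX k i + c + 1 = m
    · have e : sX k i + c = (m : ℤ) - 1 := by omega
      rw [if_pos hz, e, phi_top hm, map_inv, tot_gpr _ le_rfl, ← ofAdd_neg, ← ofAdd_zsmul,
        ← ofAdd_add, smul_eq_mul]
      congr 1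
      have e2 : ((m - 1 : ℕ) : ℤ) = m - 1 := by omega
      rw [e2]
      ring
    · rw [if_neg hz, phi_low hm hz0 (by omega), tot, FreeGroup.lift_apply_of, ← ofAdd_zsmul,
        ← ofAdd_add, smul_eq_mul]
      congr 1
      ring

end Pool.Agent.H71.DA
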