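import Mathlib

/-! # The integral Heisenberg group -/

namespace Pool.Agent.H71.DA

/-- the integral Heisenberg group -/
@[ext] structure Heis where
  /-- first coordinate -/
  a : ℤ
  /-- second coordinate -/
  b : ℤ
  /-- central coordinate -/
  c : ℤ

namespace Heis

instance : Mul Heis := ⟨fun x y => ⟨x.a + y.a, x.b + y.b, x.c + y.c + x.a * y.b⟩⟩

instance : One Heis := ⟨⟨0, 0, 0⟩⟩

instance : Inv Heis := ⟨fun x => ⟨-x.a, -x.b, -x.c + x.a * x.b⟩⟩

@[simp] theorem mul_a (x y : Heis) : (x * y).a = x.a + y.a := rfl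
@[simp] theorem mul_b (x y : Heis) : (x * y).b = x.b + y.b := rfl
@[simp] theorem mul_c (x y : Heis) : (x * y).c = x.c + y.c + x.a * y.b := rfl
@[simp] theorem one_a : (1 : Heis).a = 0 := rfl
@[simp] theorem one_b : (1 : Heis).b = 0 := rfl
@[simp] theorem one_c : (1 : Heis).c = 0 := rfl
@[simp] theorem inv_a (x : Heis) : (x⁻¹).a = -x.a := rfl
@[simp] theorem inv_b (x : Heis) : (x⁻¹).b = -x.b := rfl
@[simp] theorem inv_c (x : Heis) : (x⁻¹).c = -x.c + x.a * x.b := rfl

instance : Group Heis :=
  Group.ofLeftAxioms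
    (by
      intro x y z
      ext
      · simp only [mul_a]; ring
      · simp only [mul_b]; ring
      · simp only [mul_a, mul_b, mul_c]; ring)
    (by
      intro x
      ext
      · simp only [mul_a, one_a, zero_add]
      · simp only [mul_b, one_b, zero_add]
      · simp only [mul_c, one_a, one_c, zero_add, zero_mul, add_zero])
    (by
      intro x
      ext
      · simp only [mul_a, inv_a, one_a]; ring
      · simp only [mul_b, inv_b, one_b]; ring
      · simp only [mul_c, inv_a, inv_c, one_c]; ring)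

/-- first coordinate as a homomorphism -/
def homA : Heis →* Multiplicative ℤ where
  toFun x := Multiplicative.ofAdd x.a
  map_one' := rfl
  map_mul' _ _ := rfl

/-- second coordinate as a homomorphism -/
def homB : Heis →* Multiplicative ℤ where
  toFun x := Multiplicative.ofAdd x.b
  map_one' := rfl
  map_mul' _ _ := rfl

theorem zpow_a (x : Heis) (q : ℤ) : (x ^ q).a = q * x.a := by
  have h : homA (x ^ q) = homA x ^ q := map_zpow homA x q
  have h2 : Multiplicative.ofAdd (x ^ q).a = (Multiplicative.ofAdd x.a) ^ q := h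
  rw [← ofAdd_zsmul, smul_eq_mul] at h2
  exact Multiplicative.ofAdd.injective h2

theorem zpow_b (x : Heis) (q : ℤ) : (x ^ q).b = q * x.b := by
  have h : homB (x ^ q) = homB x ^ q := map_zpow homB x q
  have h2 : Multiplicative.ofAdd (x ^ q).b = (Multiplicative.ofAdd x.b) ^ q := h
  rw [← ofAdd_zsmul, smul_eq_mul] at h2
  exact Multiplicative.ofAdd.injective h2

/-- commuting elements -/
theorem comm_iff {x y : Heis} (h : x * y = y * x) : x.a * y.b = y.a * x.b := by
  have h1 := congrArg Heis.c h
  simp only [mul_c] at h1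
  linarith

/-- the centre -/
def cen : Subgroup Heis where
  carrier := {x | x.a = 0 ∧ x.b = 0}
  one_mem' := ⟨rfl, rfl⟩
  mul_mem' := by
    rintro x y ⟨h1, h2⟩ ⟨h3, h4⟩
    exact ⟨by rw [mul_a, h1, h3, add_zero], by rw [mul_b, h2, h4, add_zero]⟩
  inv_mem' := by
    rintro x ⟨h1, h2⟩
    exact ⟨by rw [inv_a, h1, neg_zero], by rw [inv_b, h2, neg_zero]⟩

theorem lcs_two (S : Subgroup Heis) : S.lowerCentralSeries 2 = ⊥ := by
  have h1 : S.lowerCentralSeries 1 ≤ cen := by
    rw [Subgroup.lowerCentralSeries_succ, Subgroup.lowerCentralSeries_zero, Subgroup.commutator_le]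
    intro x _ y _
    refine ⟨?_, ?_⟩
    · rw [commutatorElement_def]
      simp only [mul_a, inv_a]
      ring
    · rw [commutatorElement_def]
      simp only [mul_b, inv_b]
      ring
  rw [Subgroup.lowerCentralSeries_succ, eq_bot_iff, Subgroup.commutator_le]
  intro x hx y _
  obtain ⟨h2, h3⟩ := h1 hx
  rw [Subgroup.mem_bot, commutatorElement_def]
  ext
  · simp only [mul_a, inv_a, one_a]
    ring
  · simp only [mul_b, inv_b, one_b]
    ring
  · simp only [mul_a, mul_c, inv_a, inv_b, inv_c, one_c, h2, h3]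
    ring

/-- homomorphisms to the Heisenberg group kill `γ_3` -/
theorem map_lcs {G : Type*} [Group G] (F : G →* Heis) (S : Subgroup G) {x : G}
    (hx : x ∈ S.lowerCentralSeries 2) : F x = 1 := by
  have h := Subgroup.mem_map_of_mem F hx
  rw [Subgroup.map_lowerCentralSeries, lcs_two, Subgroup.mem_bot] at h
  exact h

end Heis

end Pool.Agent.H71.DA
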