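import Pool.Agent.H52.PAG.The
import Pool.Agent.H71.DA.Heis

/-! # Short words in `γ_3` of the pure subgroup of a dihedral Artin group

`q1`: `a ^ k * b ^ l ∈ γ_3` only for `k = l = 0`; `q2`: `a ^ k * b ^ l * a ^ p * b ^ q ∈ γ_3` only if
`k l p q = 0` (`m ≥ 3`). The path of `(0, 1)` under the word is followed; the value in the free group
is mapped to the Heisenberg group. -/

namespace Pool.Agent.H71.DA

open Pool.Agent.H52.PAG MulOpposite

variable {m : ℕ}

/-- the action -/
noncomputable def R (x : DA m) (p : ZMod (2 * m) × FreeGroup (Fin (m - 1))) :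
    ZMod (2 * m) × FreeGroup (Fin (m - 1)) :=
  (ract (phi m) (dpr_phi m) x).unop p

theorem R_mul (x y : DA m) (p : ZMod (2 * m) × FreeGroup (Fin (m - 1))) :
    R (x * y) p = R y (R x p) := ract_mul _ _ x y p

theorem R_up {e : Bool} {v v' : ZMod (2 * m)} (h : par v = e) (hv : v + 1 = v') (q : ℤ)
    (g : FreeGroup (Fin (m - 1))) :
    R (dg m e ^ (2 * q)) (v, g) = (v, g * phi m v ^ q) ∧
      R (dg m e ^ (2 * q + 1)) (v, g) = (v', g * phi m v ^ q) := by
  have := ract_pow_up (phi m) (dpr_phi m) e v h q g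
  rw [hv] at this
  exact this

theorem R_down {e : Bool} {v v' : ZMod (2 * m)} (h : par v ≠ e) (hv : v - 1 = v') (q : ℤ)
    (g : FreeGroup (Fin (m - 1))) :
    R (dg m e ^ (2 * q)) (v, g) = (v, g * phi m v' ^ q) ∧
      R (dg m e ^ (2 * q + 1)) (v, g) = (v', g * phi m v' ^ (q + 1)) := by
  have := ract_pow_down (phi m) (dpr_phi m) e v h q g
  rw [hv] at this
  exact this

theorem par_nat (k : ℕ) : par ((k : ℕ) : ZMod (2 * m)) = decide (Odd k) := par_natCast m k

theorem par0 : par (0 : ZMod (2 * m)) = false := by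
  have := par_natCast m 0
  rw [Nat.cast_zero] at this
  rw [this]
  decide

theorem par1 : par (1 : ZMod (2 * m)) = true := by
  have := par_natCast m 1
  rw [Nat.cast_one] at this
  rw [this]
  decide

theorem par2 : par (2 : ZMod (2 * m)) = false := by
  have := par_natCast m 2
  rw [Nat.cast_ofNat] at this
  rw [this]
  decide

theorem par3 : par (3 : ZMod (2 * m)) = true := by
  have := par_natCast m 3
  rw [Nat.cast_ofNat] at this
  rw [this]
  decide

theorem parm1 : par (-1 : ZMod (2 * m)) = true := by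
  have := par_sub_one (0 : ZMod (2 * m))
  rw [zero_sub, par0] at this
  exact this

theorem parm2 : par (-2 : ZMod (2 * m)) = false := by
  have := par_sub_one (-1 : ZMod (2 * m))
  rw [parm1] at this
  have e : (-1 : ZMod (2 * m)) - 1 = -2 := by ring
  rw [e] at this
  exact this

/-- small multiples of one do not vanish -/
theorem nz {k : ℕ} (h0 : 0 < k) (h : k < 2 * m) : ((k : ℕ) : ZMod (2 * m)) ≠ 0 := by
  intro h1
  rw [ZMod.natCast_eq_zero_iff] at h1
  exact absurd (Nat.le_of_dvd h0 h1) (by omega)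

/-- the homomorphism from the free group to the Heisenberg group -/
def chi (m : ℕ) : FreeGroup (Fin (m - 1)) →* Heis :=
  FreeGroup.lift fun i => if (i : ℕ) = 0 then ⟨1, 0, 0⟩ else if (i : ℕ) = 1 then ⟨0, 1, 0⟩ else 1

theorem chi_of (i : Fin (m - 1)) : chi m (FreeGroup.of i) =
    if (i : ℕ) = 0 then ⟨1, 0, 0⟩ else if (i : ℕ) = 1 then ⟨0, 1, 0⟩ else 1 :=
  FreeGroup.lift_apply_of

theorem chi_gpr (n : ℕ) (hn : n + 2 ≤ m - 1) :
    (chi m (gpr m (n + 2))).a = 1 ∧ (chi m (gpr m (n + 2))).b = 1 := by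
  induction n with
  | zero =>
    have h0 : 0 < m - 1 := by omega
    have h1 : 1 < m - 1 := by omega
    have e : gpr m (0 + 2) = FreeGroup.of ⟨1, h1⟩ * (FreeGroup.of ⟨0, h0⟩ * 1) := by
      simp only [gpr]
      rw [dif_pos h1, dif_pos h0]
    rw [e, mul_one, map_mul, chi_of, chi_of]
    simp
  | succ n ih =>
    have h2 : n + 2 < m - 1 := by omega
    obtain ⟨i1, i2⟩ := ih (by omega)
    have e : gpr m (n + 1 + 2) = FreeGroup.of ⟨n + 2, h2⟩ * gpr m (n + 2) := by
      rw [gpr, dif_pos h2]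
    rw [e, map_mul, chi_of]
    have h3 : ¬ (((⟨n + 2, h2⟩ : Fin (m - 1)) : ℕ) = 0) := by simp
    have h4 : ¬ (((⟨n + 2, h2⟩ : Fin (m - 1)) : ℕ) = 1) := by simp
    rw [if_neg h3, if_neg h4, one_mul]
    exact ⟨i1, i2⟩

theorem phi0 (hm : 3 ≤ m) : chi m (phi m 0) = ⟨1, 0, 0⟩ := by
  have h := phi_natCast (m := m) (by omega) 0
  rw [Nat.cast_zero, Nat.zero_mod] at h
  have h0 : 0 < m - 1 := by omega
  rw [h, fph, dif_pos h0, chi_of, if_pos rfl]

theorem phi1 (hm : 3 ≤ m) : chi m (phi m 1) = ⟨0, 1, 0⟩ := by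
  have h := phi_natCast (m := m) (by omega) 1
  rw [Nat.cast_one, Nat.mod_eq_of_lt (by omega)] at h
  have h0 : 1 < m - 1 := by omega
  rw [h, fph, dif_pos h0, chi_of, if_neg (by simp), if_pos rfl]

theorem phim1 (hm : 3 ≤ m) : (chi m (phi m (-1))).a = -1 ∧ (chi m (phi m (-1))).b = -1 := by
  have h := phi_natCast (m := m) (by omega) (m - 1)
  have e : ((m - 1 : ℕ) : ZMod (2 * m)) = -1 + (m : ZMod (2 * m)) := by
    rw [Nat.cast_sub (by omega)]
    push_cast
    ring
  rw [e, phi_add (by omega), Nat.mod_eq_of_lt (by omega)] at h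
  rw [h, fph, dif_neg (lt_irrefl _), map_inv]
  obtain ⟨h1, h2⟩ := chi_gpr (m := m) (m - 3) (by omega)
  have e2 : m - 3 + 2 = m - 1 := by omega
  rw [e2] at h1 h2
  rw [Heis.inv_a, Heis.inv_b, h1, h2]
  exact ⟨rfl, rfl⟩

theorem phim2 (hm : 3 ≤ m) : (chi m (phi m (-2))).a = 0 ∧
    (chi m (phi m (-2))).b = if m = 3 then 1 else 0 := by
  have h := phi_natCast (m := m) (by omega) (m - 2)
  have e : ((m - 2 : ℕ) : ZMod (2 * m)) = -2 + (m : ZMod (2 * m)) := by
    rw [Nat.cast_sub (by omega)]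
    push_cast
    ring
  have h0 : m - 2 < m - 1 := by omega
  rw [e, phi_add (by omega), Nat.mod_eq_of_lt (by omega)] at h
  rw [h, fph, dif_pos h0, chi_of]
  have h1 : ¬ (((⟨m - 2, h0⟩ : Fin (m - 1)) : ℕ) = 0) := by
    show ¬ (m - 2 = 0)
    omega
  rw [if_neg h1]
  by_cases h3 : m = 3
  · have h4 : (((⟨m - 2, h0⟩ : Fin (m - 1)) : ℕ) = 1) := by
      show m - 2 = 1
      omega
    rw [if_pos h4, if_pos h3]
    exact ⟨rfl, rfl⟩
  · have h4 : ¬ (((⟨m - 2, h0⟩ : Fin (m - 1)) : ℕ) = 1) := by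
      show ¬ (m - 2 = 1)
      omega
    rw [if_neg h4, if_neg h3]
    exact ⟨rfl, rfl⟩

theorem mem_of_lcs {x : DA m} (hx : x ∈ (PD m).lowerCentralSeries 2) : x ∈ PD m :=
  (PD m).lowerCentralSeries_antitone (Nat.zero_le 2) hx

/-- the value of an element of `γ_3` in the Heisenberg group is trivial -/
theorem val_one {x : DA m} (hx : x ∈ (PD m).lowerCentralSeries 2)
    {g : FreeGroup (Fin (m - 1))} {v : ZMod (2 * m)} (h : R x (0, 1) = (v, g)) :
    v = 0 ∧ chi m g = 1 := by
  have hP := mem_of_lcs hx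
  have h1 : (R x (0, 1)).1 = 0 := hP
  rw [h] at h1
  have h2 : v = 0 := h1
  rw [h2] at h
  have h3 := the_eq h hP
  refine ⟨h2, ?_⟩
  have h4 : (⟨x, hP⟩ : PD m) ∈ (⊤ : Subgroup (PD m)).lowerCentralSeries 2 := by
    have h5 := Subgroup.top_subtype_lowerCentralSeries (PD m) 2
    rw [← h5] at hx
    obtain ⟨y, hy, hyx⟩ := hx
    have h6 : y = ⟨x, hP⟩ := Subtype.ext hyx
    rw [← h6]
    exact hy
  have h7 := Heis.map_lcs ((chi m).comp (the m)) ⊤ h4
  rw [MonoidHom.comp_apply, h3] at h7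
  exact h7

/-- the degree of an element of `γ_3` is zero -/
theorem deg_zero {x : DA m} (hx : x ∈ (PD m).lowerCentralSeries 2) : dega m x = 1 := by
  have h1 : x ∈ (PD m).lowerCentralSeries 1 :=
    (PD m).lowerCentralSeries_antitone (by norm_num) hx
  rw [Subgroup.lowerCentralSeries_succ, Subgroup.lowerCentralSeries_zero] at h1
  have h2 : ⁅PD m, PD m⁆ ≤ (dega m).ker := by
    rw [Subgroup.commutator_le]
    intro a _ b _
    rw [MonoidHom.mem_ker, map_commutatorElement, commutatorElement_eq_one_iff_mul_comm]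
    exact mul_comm _ _
  exact h2 h1

theorem dega_pow (e : Bool) (k : ℤ) : dega m (dg m e ^ k) = Multiplicative.ofAdd k := by
  rw [map_zpow]
  have h : dega m (dg m e) = Multiplicative.ofAdd 1 := dlift_dg _ _ e
  rw [h, ← ofAdd_zsmul, smul_eq_mul, mul_one]

theorem q2 (hm : 3 ≤ m) (k l p q : ℤ)
    (h : dg m false ^ k * dg m true ^ l * dg m false ^ p * dg m true ^ q ∈
      (PD m).lowerCentralSeries 2) : k * l * p * q = 0 := by
  have hd := deg_zero h
  rw [map_mul, map_mul, map_mul, dega_pow, dega_pow, dega_pow, dega_pow, ← ofAdd_add, ← ofAdd_add,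
    ← ofAdd_add] at hd
  have hd' : k + l + p + q = 0 := Multiplicative.ofAdd.injective hd
  have hv := fun {g : FreeGroup (Fin (m - 1))} {v : ZMod (2 * m)} => val_one (g := g) (v := v) h
  simp only [R_mul] at hv
  have n1 : (1 : ZMod (2 * m)) ≠ 0 := by
    have := nz (m := m) (k := 1) (by norm_num) (by omega)
    rwa [Nat.cast_one] at this
  have n2 : (2 : ZMod (2 * m)) ≠ 0 := by
    have := nz (m := m) (k := 2) (by norm_num) (by omega)
    rwa [Nat.cast_ofNat] at this
  have n3 : (3 : ZMod (2 * m)) ≠ 0 := by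
    have := nz (m := m) (k := 3) (by norm_num) (by omega)
    rwa [Nat.cast_ofNat] at this
  have n4 : (4 : ZMod (2 * m)) ≠ 0 := by
    have := nz (m := m) (k := 4) (by norm_num) (by omega)
    rwa [Nat.cast_ofNat] at this
  have m1 : (-1 : ZMod (2 * m)) ≠ 0 := neg_ne_zero.2 n1
  have m2 : (-2 : ZMod (2 * m)) ≠ 0 := neg_ne_zero.2 n2
  have m3 : (-3 : ZMod (2 * m)) ≠ 0 := neg_ne_zero.2 n3
  -- the moves
  have a0 := R_up (m := m) (e := false) (v := 0) (v' := 1) par0 (by ring)
  have a2 := R_up (m := m) (e := false) (v := 2) (v' := 3) par2 (by ring)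
  have a1 := R_down (m := m) (e := false) (v := 1) (v' := 0) (by rw [par1]; simp) (by ring)
  have am1 := R_down (m := m) (e := false) (v := -1) (v' := -2) (by rw [parm1]; simp) (by ring)
  have b1 := R_up (m := m) (e := true) (v := 1) (v' := 2) par1 (by ring)
  have b3 := R_up (m := m) (e := true) (v := 3) (v' := 4) par3 (by ring)
  have bm1 := R_up (m := m) (e := true) (v := -1) (v' := 0) parm1 (by ring)
  have b0 := R_down (m := m) (e := true) (v := 0) (v' := -1) (by rw [par0]; simp) (by ring)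
  have b2 := R_down (m := m) (e := true) (v := 2) (v' := 1) (by rw [par2]; simp) (by ring)
  have bm2 := R_down (m := m) (e := true) (v := -2) (v' := -3) (by rw [parm2]; simp) (by ring)
  obtain ⟨f1, f2⟩ := phim1 hm
  obtain ⟨f3, f4⟩ := phim2 hm
  have f5 := phi0 hm
  have f6 := phi1 hm
  obtain ⟨k', rfl | rfl⟩ := Int.even_or_odd' k <;> obtain ⟨l', rfl | rfl⟩ := Int.even_or_odd' l <;>
    obtain ⟨p', rfl | rfl⟩ := Int.even_or_odd' p <;> obtain ⟨q', rfl | rfl⟩ := Int.even_or_odd' q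
  · -- all even
    rw [(a0 _ _).1, (b0 _ _).1, (a0 _ _).1, (b0 _ _).1] at hv
    have h1 := (hv rfl).2
    simp only [one_mul, map_mul, map_zpow] at h1
    have ha := congrArg Heis.a h1
    have hb := congrArg Heis.b h1
    simp only [Heis.mul_a, Heis.mul_b, Heis.zpow_a, Heis.zpow_b, f1, f2, f5, Heis.one_a,
      Heis.one_b] at ha hb
    have hp : p' = -k' := by linarith
    have hq : q' = -l' := by linarith
    rw [hp, hq] at h1
    have h2 : chi m (phi m 0) ^ k' * chi m (phi m (-1)) ^ l' =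
        chi m (phi m (-1)) ^ l' * chi m (phi m 0) ^ k' := by
      have h3 : chi m (phi m 0) ^ k' * chi m (phi m (-1)) ^ l' *
          (chi m (phi m 0) ^ k')⁻¹ * (chi m (phi m (-1)) ^ l')⁻¹ = 1 := by
        rw [← zpow_neg, ← zpow_neg]
        exact h1
      have h4 := mul_inv_eq_one.1 h3
      have h5 := mul_inv_eq_iff_eq_mul.1 h4
      exact h5
    have h3 := Heis.comm_iff h2
    simp only [Heis.zpow_a, Heis.zpow_b, f1, f2, f5] at h3
    have h4 : k' * l' = 0 := by linarith
    rcases mul_eq_zero.1 h4 with h5 | h5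
    · rw [h5]; ring
    · rw [h5]; ring
  · omega
  · omega
  · -- even, even, odd, odd
    rw [(a0 _ _).1, (b0 _ _).1, (a0 _ _).2, (b1 _ _).2] at hv
    exact absurd (hv rfl).1 n2
  · omega
  · -- even, odd, even, odd
    rw [(a0 _ _).1, (b0 _ _).2, (am1 _ _).1, (bm1 _ _).2] at hv
    have h1 := (hv rfl).2
    simp only [one_mul, map_mul, map_zpow] at h1
    have ha := congrArg Heis.a h1
    have hb := congrArg Heis.b h1
    simp only [Heis.mul_a, Heis.mul_b, Heis.zpow_a, Heis.zpow_b, f1, f2, f3, f4, f5, Heis.one_a,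
      Heis.one_b] at ha hb
    by_cases h3 : m = 3
    · rw [if_pos h3] at hb
      have h4 : p' = 0 := by linarith
      rw [h4]
      ring
    · rw [if_neg h3] at hb
      have h4 : k' = 0 := by linarith
      rw [h4]
      ring
  · -- even, odd, odd, even
    rw [(a0 _ _).1, (b0 _ _).2, (am1 _ _).2, (bm2 _ _).1] at hv
    exact absurd (hv rfl).1 m2
  · omega
  · omega
  · -- odd, even, even, odd
    rw [(a0 _ _).2, (b1 _ _).1, (a1 _ _).1, (b1 _ _).2] at hv
    exact absurd (hv rfl).1 n2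
  · -- odd, even, odd, even
    rw [(a0 _ _).2, (b1 _ _).1, (a1 _ _).2, (b0 _ _).1] at hv
    have h1 := (hv rfl).2
    simp only [one_mul, map_mul, map_zpow] at h1
    have ha := congrArg Heis.a h1
    have hb := congrArg Heis.b h1
    simp only [Heis.mul_a, Heis.mul_b, Heis.zpow_a, Heis.zpow_b, f1, f2, f5, f6, Heis.one_a,
      Heis.one_b] at ha hb
    have h4 : l' = 0 := by linarith
    rw [h4]
    ring
  · omega
  · -- odd, odd, even, even
    rw [(a0 _ _).2, (b1 _ _).2, (a2 _ _).1, (b2 _ _).1] at hv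
    exact absurd (hv rfl).1 n2
  · omega
  · omega
  · -- all odd
    rw [(a0 _ _).2, (b1 _ _).2, (a2 _ _).2, (b3 _ _).2] at hv
    exact absurd (hv rfl).1 n4

theorem q1 (hm : 3 ≤ m) (k l : ℤ)
    (h : dg m false ^ k * dg m true ^ l ∈ (PD m).lowerCentralSeries 2) : k = 0 ∧ l = 0 := by
  have hd := deg_zero h
  rw [map_mul, dega_pow, dega_pow, ← ofAdd_add] at hd
  have hd' : k + l = 0 := Multiplicative.ofAdd.injective hd
  have hv := fun {g : FreeGroup (Fin (m - 1))} {v : ZMod (2 * m)} => val_one (g := g) (v := v) h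
  simp only [R_mul] at hv
  have n2 : (2 : ZMod (2 * m)) ≠ 0 := by
    have := nz (m := m) (k := 2) (by norm_num) (by omega)
    rwa [Nat.cast_ofNat] at this
  have a0 := R_up (m := m) (e := false) (v := 0) (v' := 1) par0 (by ring)
  have b1 := R_up (m := m) (e := true) (v := 1) (v' := 2) par1 (by ring)
  have b0 := R_down (m := m) (e := true) (v := 0) (v' := -1) (by rw [par0]; simp) (by ring)
  obtain ⟨f1, f2⟩ := phim1 hm
  have f5 := phi0 hm
  obtain ⟨k', rfl | rfl⟩ := Int.even_or_odd' k <;> obtain ⟨l', rfl | rfl⟩ := Int.even_or_odd' l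
  · rw [(a0 _ _).1, (b0 _ _).1] at hv
    have h1 := (hv rfl).2
    simp only [one_mul, map_mul, map_zpow] at h1
    have ha := congrArg Heis.a h1
    have hb := congrArg Heis.b h1
    simp only [Heis.mul_a, Heis.mul_b, Heis.zpow_a, Heis.zpow_b, f1, f2, f5, Heis.one_a,
      Heis.one_b] at ha hb
    constructor
    · linarith
    · linarith
  · omega
  · omega
  · rw [(a0 _ _).2, (b1 _ _).2] at hv
    exact absurd (hv rfl).1 n2

end Pool.Agent.H71.DA
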